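import Pool.Agent.T9h68.QC.Star
import Pool.Agent.T9h16.QL.Spec

/-!
# Piece (H1) of project QL: one random star is invisible in a random graph of any density

The graph is given by uniform labels (chi-square computation, modified from
`Pool.Agent.T9h68.QC.Star` of helper68).
-/

set_option autoImplicit false
set_option linter.unusedSectionVars false

namespace Pool.Agent.T9h65.QL

open Finset
open Pool.Agent.PC34 (prob)
open Pool.Agent.T9h34.Q
open Pool.Agent.T9h16.QL
open Pool.Agent.T9h68.QC (pkt sum_pkt star_inter_self sum_mem_image pow_bd)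

section gen

variable {E P : Type} [Fintype E] [DecidableEq E] [Fintype P] {L : ℕ}

/-- the labels outside `e` -/
def rst (e : E) (a : ℕ) (r : {j : E // j ≠ e} → Fin L) : Finset E :=
  univ.filter fun j => ∃ h : j ≠ e, (r ⟨j, h⟩ : ℕ) < a

lemma low_split (e : E) (a : ℕ) (x : Fin L) (r : {j : E // j ≠ e} → Fin L) :
    low ((Equiv.funSplitAt e (Fin L)).symm (x, r)) a =
      if (x : ℕ) < a then insert e (rst e a r) else rst e a r := by
  ext j
  have h0 : ((Equiv.funSplitAt e (Fin L)).symm (x, r)) j = if h : j = e then x else r ⟨j, h⟩ := by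
    rw [Equiv.funSplitAt_symm_apply]
  by_cases hj : j = e
  · subst hj
    have h1 : (j ∈ low ((Equiv.funSplitAt j (Fin L)).symm (x, r)) a) ↔ (x : ℕ) < a := by
      simp only [low, mem_filter, mem_univ, true_and]
      rw [h0, dif_pos rfl]
    rw [h1]
    by_cases hx : (x : ℕ) < a
    · simp [hx]
    · simp [rst, hx]
  · simp only [low, mem_filter, mem_univ, true_and, h0, dif_neg hj]
    have h1 : j ∈ rst e a r ↔ (r ⟨j, hj⟩ : ℕ) < a := by
      simp only [rst, mem_filter, mem_univ, true_and]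
      exact ⟨fun ⟨_, h⟩ => h, fun h => ⟨hj, h⟩⟩
    split_ifs with hx
    · rw [mem_insert, or_iff_right hj, h1]
    · rw [h1]

lemma rst_insert (e : E) (a : ℕ) (r : {j : E // j ≠ e} → Fin L) : e ∉ rst e a r := by
  simp [rst]

/-- one element -/
lemma sum_one (e : E) {a : ℕ} (ha : 1 ≤ a) (haL : a ≤ L) (F : Finset E → ℝ) :
    ∑ lab : E → Fin L, F (low lab a ∪ {e}) =
      ((L : ℝ) / a) * ∑ lab : E → Fin L, if e ∈ low lab a then F (low lab a) else 0 := by
  classical
  rw [← Equiv.sum_comp (Equiv.funSplitAt e (Fin L)).symm,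
    ← Equiv.sum_comp (Equiv.funSplitAt e (Fin L)).symm, Fintype.sum_prod_type,
    Fintype.sum_prod_type, sum_comm, sum_comm (γ := Fin L), mul_sum]
  refine sum_congr rfl fun r _ => ?_
  have h1 : ∀ x : Fin L, F (low ((Equiv.funSplitAt e (Fin L)).symm (x, r)) a ∪ {e}) =
      F (insert e (rst e a r)) := by
    intro x
    rw [low_split]
    congr 1
    split_ifs
    · ext j; simp only [mem_union, mem_insert, mem_singleton]; tauto
    · ext j; simp only [mem_union, mem_insert, mem_singleton]; tauto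
  have h2 : ∀ x : Fin L, (if e ∈ low ((Equiv.funSplitAt e (Fin L)).symm (x, r)) a then
      F (low ((Equiv.funSplitAt e (Fin L)).symm (x, r)) a) else 0) =
      if (x : ℕ) < a then F (insert e (rst e a r)) else 0 := by
    intro x
    rw [low_split]
    by_cases hx : (x : ℕ) < a
    · rw [if_pos hx, if_pos hx, if_pos (mem_insert_self _ _)]
    · rw [if_neg hx, if_neg hx, if_neg (rst_insert e a r)]
  simp only [h1, h2]
  rw [sum_const, card_univ, Fintype.card_fin, ← sum_filter, sum_const]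
  have h3 : (univ.filter fun x : Fin L => (x : ℕ) < a).card = a := by
    rw [Fin.card_filter_val_lt]
    exact min_eq_right haL
  rw [h3]
  have ha0 : (a : ℝ) ≠ 0 := by
    have : 0 < a := ha
    positivity
  simp only [nsmul_eq_mul]
  field_simp

theorem sum_union {a : ℕ} (ha : 1 ≤ a) (haL : a ≤ L) (K : Finset E) : ∀ F : Finset E → ℝ,
    ∑ lab : E → Fin L, F (low lab a ∪ K) =
      ((L : ℝ) / a) ^ K.card * ∑ lab : E → Fin L, if K ⊆ low lab a then F (low lab a) else 0 := by
  classical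
  induction K using Finset.induction_on with
  | empty => intro F; simp
  | insert e K he ih =>
    intro F
    have h1 : ∑ lab : E → Fin L, F (low lab a ∪ insert e K) =
        ∑ lab : E → Fin L, (fun H => F (H ∪ K)) (low lab a ∪ {e}) := by
      refine sum_congr rfl fun lab _ => ?_
      simp only
      congr 1
      ext j; simp only [mem_union, mem_insert, mem_singleton]; tauto
    have h2 : ∑ lab : E → Fin L, (if e ∈ low lab a then F (low lab a ∪ K) else 0) =
        ∑ lab : E → Fin L, (fun H => if e ∈ H then F H else 0) (low lab a ∪ K) := by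
      refine sum_congr rfl fun lab _ => ?_
      simp only [mem_union, he, or_false]
    rw [h1, sum_one e ha haL (fun H => F (H ∪ K)), h2, ih (fun H => if e ∈ H then F H else 0),
      card_insert_of_notMem he, pow_succ]
    have h3 : ∑ lab : E → Fin L, (if K ⊆ low lab a then
        (fun H => if e ∈ H then F H else 0) (low lab a) else 0) =
        ∑ lab : E → Fin L, (if insert e K ⊆ low lab a then F (low lab a) else 0) := by
      refine sum_congr rfl fun lab _ => ?_
      by_cases h4 : K ⊆ low lab a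
      · by_cases h5 : e ∈ low lab a
        · rw [if_pos h4, if_pos (insert_subset h5 h4)]; simp only [if_pos h5]
        · rw [if_pos h4, if_neg (fun h => h5 (h (mem_insert_self _ _)))]; simp only [if_neg h5]
      · rw [if_neg h4, if_neg (fun h => h4 ((subset_insert _ _).trans h))]
    rw [h3]
    ring

theorem sum_sup {a : ℕ} (ha : 1 ≤ a) (haL : a ≤ L) (K : Finset E) :
    ∑ lab : E → Fin L, (if K ⊆ low lab a then (1 : ℝ) else 0) =
      (L : ℝ) ^ Fintype.card E / ((L : ℝ) / a) ^ K.card := by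
  have h1 := sum_union (E := E) ha haL K (fun _ => (1 : ℝ))
  rw [sum_const, card_univ, Fintype.card_fun, Fintype.card_fin] at h1
  have ha0 : (0 : ℝ) < a := by exact_mod_cast ha
  have hL0 : (0 : ℝ) < L := by exact_mod_cast (lt_of_lt_of_le ha haL)
  rw [eq_div_iff (by positivity), mul_comm, ← h1]
  simp

/-- the density, times the number of packets -/
noncomputable def den (μ : ℝ) (st : P → Finset E) (H : Finset E) : ℝ :=
  ∑ p, if st p ⊆ H then μ ^ (st p).card else 0

theorem sum_den_mul {a : ℕ} (ha : 1 ≤ a) (haL : a ≤ L) (st : P → Finset E) (F : Finset E → ℝ) :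
    ∑ lab : E → Fin L, ∑ p, F (low lab a ∪ st p) =
      ∑ lab : E → Fin L, F (low lab a) * den ((L : ℝ) / a) st (low lab a) := by
  rw [sum_comm]
  simp only [sum_union ha haL, den, mul_sum]
  rw [sum_comm]
  refine sum_congr rfl fun H _ => sum_congr rfl fun p _ => ?_
  split_ifs
  · ring
  · ring

theorem sum_den {a : ℕ} (ha : 1 ≤ a) (haL : a ≤ L) (st : P → Finset E) :
    ∑ lab : E → Fin L, den ((L : ℝ) / a) st (low lab a) =
      (L : ℝ) ^ Fintype.card E * Fintype.card P := by
  have h1 := sum_den_mul (E := E) ha haL st (fun _ => (1 : ℝ))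
  simp only [one_mul] at h1
  rw [← h1]
  simp

theorem sum_den_sq {a : ℕ} (ha : 1 ≤ a) (haL : a ≤ L) (st : P → Finset E) :
    ∑ lab : E → Fin L, den ((L : ℝ) / a) st (low lab a) ^ 2 =
      (L : ℝ) ^ Fintype.card E * ∑ p, ∑ p', ((L : ℝ) / a) ^ (st p ∩ st p').card := by
  have ha0 : (0 : ℝ) < a := by exact_mod_cast ha
  have hL0 : (0 : ℝ) < L := by exact_mod_cast (lt_of_lt_of_le ha haL)
  have h1 : ∀ H : Finset E, den ((L : ℝ) / a) st H ^ 2 =
      ∑ p, ∑ p', ((L : ℝ) / a) ^ (st p).card * ((L : ℝ) / a) ^ (st p').card *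
      (if st p ∪ st p' ⊆ H then 1 else 0) := by
    intro H
    rw [sq, den, sum_mul_sum]
    refine sum_congr rfl fun p _ => sum_congr rfl fun p' _ => ?_
    by_cases h1 : st p ⊆ H
    · by_cases h2 : st p' ⊆ H
      · simp [h1, h2, union_subset_iff]
      · simp [h1, h2, union_subset_iff]
    · simp [h1, union_subset_iff]
  simp only [h1]
  rw [sum_comm, mul_sum]
  refine sum_congr rfl fun p _ => ?_
  rw [sum_comm, mul_sum]
  refine sum_congr rfl fun p' _ => ?_
  rw [← mul_sum, sum_sup ha haL]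
  have h2 : ((L : ℝ) / a) ^ (st p).card * ((L : ℝ) / a) ^ (st p').card =
      ((L : ℝ) / a) ^ (st p ∪ st p').card * ((L : ℝ) / a) ^ (st p ∩ st p').card := by
    rw [← pow_add, ← pow_add, card_union_add_card_inter]
  rw [h2]
  have h3 : ((L : ℝ) / a) ^ (st p ∪ st p').card ≠ 0 := by positivity
  field_simp

theorem prob_diff_sq {a : ℕ} (ha : 1 ≤ a) (haL : a ≤ L) (st : P → Finset E) [Nonempty P]
    (Θ : Finset E → Prop) :
    (prob (fun x : (E → Fin L) × P => Θ (low x.1 a ∪ st x.2)) -
      prob (fun lab : E → Fin L => Θ (low lab a))) ^ 2 ≤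
    ((∑ p, ∑ p', ((L : ℝ) / a) ^ (st p ∩ st p').card) - (Fintype.card P : ℝ) ^ 2) /
      (Fintype.card P : ℝ) ^ 2 := by
  classical
  have ha0 : (0 : ℝ) < a := by exact_mod_cast ha
  have hL0 : (0 : ℝ) < L := by exact_mod_cast (lt_of_lt_of_le ha haL)
  set θ : Finset E → ℝ := fun H => if Θ H then 1 else 0 with hθ
  set M : ℝ := (L : ℝ) ^ Fintype.card E with hM
  set N : ℝ := (Fintype.card P : ℝ) with hN
  set S : ℝ := ∑ p, ∑ p', ((L : ℝ) / a) ^ (st p ∩ st p').card with hS
  set dn : Finset E → ℝ := den ((L : ℝ) / a) st with hdn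
  have hM0 : 0 < M := by positivity
  have hN0 : 0 < N := by
    rw [hN]; exact_mod_cast Fintype.card_pos
  have hMc : (Fintype.card (E → Fin L) : ℝ) = M := by
    rw [Fintype.card_fun, Fintype.card_fin, hM]; push_cast; rfl
  have e1 : prob (fun x : (E → Fin L) × P => Θ (low x.1 a ∪ st x.2)) =
      (∑ lab : E → Fin L, θ (low lab a) * dn (low lab a)) / (M * N) := by
    unfold prob
    rw [hdn, ← sum_den_mul ha haL, Fintype.card_prod]
    congr 1
    · rw [card_filter, Nat.cast_sum, Fintype.sum_prod_type]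
      refine sum_congr rfl fun G _ => sum_congr rfl fun p _ => ?_
      simp only [hθ]
      split_ifs <;> simp
    · rw [Nat.cast_mul, hMc]
  have e2 : prob (fun lab : E → Fin L => Θ (low lab a)) =
      (∑ lab : E → Fin L, θ (low lab a)) / M := by
    unfold prob
    rw [hMc]
    congr 1
    rw [card_filter, Nat.cast_sum]
    refine sum_congr rfl fun G _ => ?_
    simp only [hθ]
    split_ifs <;> simp
  have e3 : prob (fun x : (E → Fin L) × P => Θ (low x.1 a ∪ st x.2)) -
      prob (fun lab : E → Fin L => Θ (low lab a)) =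
      (∑ lab : E → Fin L, θ (low lab a) * (dn (low lab a) - N)) / (M * N) := by
    rw [e1, e2]
    have : ∑ lab : E → Fin L, θ (low lab a) * (dn (low lab a) - N) =
        ∑ lab : E → Fin L, θ (low lab a) * dn (low lab a) -
          N * ∑ lab : E → Fin L, θ (low lab a) := by
      rw [mul_sum, ← sum_sub_distrib]
      exact sum_congr rfl fun H _ => by ring
    rw [this]
    field_simp
  have e4 : ∑ lab : E → Fin L, (dn (low lab a) - N) ^ 2 = M * (S - N ^ 2) := by
    have h1 : ∑ lab : E → Fin L, (dn (low lab a) - N) ^ 2 =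
        ∑ lab : E → Fin L, dn (low lab a) ^ 2 - 2 * N * ∑ lab : E → Fin L, dn (low lab a) +
          ∑ _lab : E → Fin L, N ^ 2 := by
      rw [mul_sum, ← sum_sub_distrib, ← sum_add_distrib]
      exact sum_congr rfl fun H _ => by ring
    rw [h1, hdn, sum_den_sq ha haL, sum_den ha haL, sum_const, card_univ, nsmul_eq_mul, hMc]
    ring
  have e5 : ∑ lab : E → Fin L, θ (low lab a) ^ 2 ≤ M := by
    have : ∑ lab : E → Fin L, θ (low lab a) ^ 2 ≤ ∑ _lab : E → Fin L, (1 : ℝ) := by
      refine sum_le_sum fun H _ => ?_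
      simp only [hθ]
      split_ifs <;> norm_num
    refine this.trans ?_
    rw [sum_const, card_univ, nsmul_eq_mul, hMc, mul_one]
  have e6 := sum_mul_sq_le_sq_mul_sq univ (fun lab : E → Fin L => θ (low lab a))
    (fun lab => dn (low lab a) - N)
  rw [e4] at e6
  have e7 : 0 ≤ M * (S - N ^ 2) := by
    rw [← e4]
    exact sum_nonneg fun H _ => sq_nonneg _
  have e8 : (∑ lab : E → Fin L, θ (low lab a) * (dn (low lab a) - N)) ^ 2 ≤ M * (M * (S - N ^ 2)) :=
    e6.trans (mul_le_mul_of_nonneg_right e5 e7)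
  rw [e3, div_pow, div_le_div_iff₀ (by positivity) (by positivity)]
  calc (∑ lab : E → Fin L, θ (low lab a) * (dn (low lab a) - N)) ^ 2 * N ^ 2
      ≤ M * (M * (S - N ^ 2)) * N ^ 2 := mul_le_mul_of_nonneg_right e8 (by positivity)
    _ = (S - N ^ 2) * (M * N) ^ 2 := by ring

end gen

section stars

variable {V ρ : Type} [Fintype V] [DecidableEq V] [Fintype ρ] [DecidableEq ρ]

theorem sum_mu_pow (μ : ℝ) (I : Finset V) :
    ∑ x : ρ → V, μ ^ (univ.filter (fun r => x r ∈ I)).card =
      ((Fintype.card V : ℝ) + (μ - 1) * I.card) ^ Fintype.card ρ := by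
  have h1 : ∀ x : ρ → V, μ ^ (univ.filter (fun r => x r ∈ I)).card =
      ∏ r, (if x r ∈ I then μ else 1) := by
    intro x
    rw [prod_ite, prod_const, prod_const_one, mul_one]
  simp only [h1]
  have h2 := prod_univ_sum (t := fun _ : ρ => (univ : Finset V))
    (f := fun _ v => if v ∈ I then μ else 1)
  rw [Fintype.piFinset_univ] at h2
  rw [← h2, prod_const, card_univ]
  congr 1
  have h3 : ∀ v : V, (if v ∈ I then μ else 1) = 1 + (μ - 1) * if v ∈ I then 1 else 0 := by
    intro v; split_ifs <;> ring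
  simp only [h3, sum_add_distrib, sum_const, card_univ, ← mul_sum]
  simp

theorem star_inter_neL {μ : ℝ} (hμ : 1 ≤ μ) {y y' : V} (hy : y ≠ y') (x x' : ρ → V) :
    μ ^ (star (pkt y x) ∩ star (pkt y' x')).card - 1 ≤
      (μ - 1) * ((if y' ∈ univ.image x then 1 else 0) * (if y ∈ univ.image x' then 1 else 0)) := by
  have h1 : ∀ e ∈ star (pkt y x) ∩ star (pkt y' x'), e = s(y, y') ∧ y' ∈ univ.image x ∧
      y ∈ univ.image x' := by
    intro e he
    rw [mem_inter] at he
    obtain ⟨h1, h2⟩ := he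
    simp only [Pool.Agent.T9h34.Q.star, mem_image, mem_univ, true_and, pkt, Option.elim] at h1 h2
    obtain ⟨r, hr⟩ := h1
    obtain ⟨t, ht⟩ := h2
    rw [← hr, Sym2.eq_iff] at ht
    rcases ht with ht | ht
    · exact absurd ht.1.symm hy
    · refine ⟨?_, mem_image.2 ⟨r, mem_univ _, ht.1.symm⟩, mem_image.2 ⟨t, mem_univ _, ht.2⟩⟩
      rw [← hr, ← ht.1]
  have hc : (star (pkt y x) ∩ star (pkt y' x')).card ≤ 1 := by
    rw [card_le_one]
    intro e he e' he'
    rw [(h1 e he).1, (h1 e' he').1]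
  rcases Nat.eq_zero_or_pos (star (pkt y x) ∩ star (pkt y' x')).card with h0 | h0
  · rw [h0]
    have h2 : (0 : ℝ) ≤ (if y' ∈ univ.image x then 1 else 0) *
        (if y ∈ univ.image x' then 1 else 0) := by
      split_ifs <;> norm_num
    have h3 : 0 ≤ (μ - 1) * ((if y' ∈ univ.image x then 1 else 0) *
        (if y ∈ univ.image x' then 1 else 0)) := mul_nonneg (by linarith) h2
    rw [pow_zero, sub_self]
    exact h3
  · obtain ⟨e, he⟩ := card_pos.1 h0
    obtain ⟨-, h2, h3⟩ := h1 e he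
    rw [if_pos h2, if_pos h3, show (star (pkt y x) ∩ star (pkt y' x')).card = 1 by omega]
    norm_num

theorem sum_pairsL [Nonempty V] {μ : ℝ} (hμ : 1 ≤ μ)
    (hR : (Fintype.card ρ : ℝ) ^ 2 * μ ≤ Fintype.card V) :
    (∑ p : Option ρ → V, ∑ p' : Option ρ → V, μ ^ (star p ∩ star p').card) -
      (Fintype.card (Option ρ → V) : ℝ) ^ 2 ≤
    (2 * μ * (Fintype.card ρ : ℝ) / Fintype.card V) ^ 2 *
      (Fintype.card (Option ρ → V) : ℝ) ^ 2 := by
  have hμ0 : 0 < μ := by linarith
  have hμ1 : 0 ≤ μ - 1 := by linarith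
  set n : ℝ := (Fintype.card V : ℝ) with hn
  set R : ℕ := Fintype.card ρ with hRdef
  have hn0 : 0 < n := by rw [hn]; exact_mod_cast Fintype.card_pos
  have hcard : (Fintype.card (Option ρ → V) : ℝ) = n * n ^ R := by
    rw [Fintype.card_fun, Fintype.card_option]
    push_cast
    rw [pow_succ]
    ring
  have h1 : (∑ p : Option ρ → V, ∑ p' : Option ρ → V, μ ^ (star p ∩ star p').card) -
      (Fintype.card (Option ρ → V) : ℝ) ^ 2 =
      ∑ y : V, ∑ x : ρ → V, ∑ y' : V, ∑ x' : ρ → V,
        (μ ^ (star (pkt y x) ∩ star (pkt y' x')).card - 1) := by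
    have h2 : (Fintype.card (Option ρ → V) : ℝ) ^ 2 =
        ∑ y : V, ∑ x : ρ → V, ∑ y' : V, ∑ x' : ρ → V, (1 : ℝ) := by
      rw [hcard]
      simp only [sum_const, card_univ, nsmul_eq_mul, mul_one, Fintype.card_fun]
      push_cast
      ring
    rw [h2, sum_pkt]
    have h3 : ∀ (y : V) (x : ρ → V),
        ∑ p' : Option ρ → V, μ ^ (Pool.Agent.T9h34.Q.star (pkt y x) ∩
          Pool.Agent.T9h34.Q.star p').card =
        ∑ y' : V, ∑ x' : ρ → V, μ ^ (Pool.Agent.T9h34.Q.star (pkt y x) ∩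
          Pool.Agent.T9h34.Q.star (pkt y' x')).card := fun y x => sum_pkt _
    simp only [h3, sum_sub_distrib]
  have h2 : ∀ (y : V) (x : ρ → V) (y' : V) (x' : ρ → V),
      μ ^ (star (pkt y x) ∩ star (pkt y' x')).card - 1 ≤
      (if y' = y then μ ^ (univ.filter (fun r => x r ∈ univ.image x')).card - 1 else 0) +
      (μ - 1) * ((if y' ∈ univ.image x then 1 else 0) * (if y ∈ univ.image x' then 1 else 0)) := by
    intro y x y' x'
    have h0 : (0 : ℝ) ≤ (if y' ∈ univ.image x then 1 else 0) *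
        (if y ∈ univ.image x' then 1 else 0) := by
      split_ifs <;> norm_num
    have h0' := mul_nonneg hμ1 h0
    by_cases hy : y' = y
    · subst hy
      rw [if_pos rfl]
      have h3 := star_inter_self y' x x'
      have h4 : μ ^ (star (pkt y' x) ∩ star (pkt y' x')).card ≤
          μ ^ (univ.filter (fun r => x r ∈ univ.image x')).card :=
        pow_le_pow_right₀ hμ h3
      linarith
    · rw [if_neg hy, zero_add]
      exact star_inter_neL hμ (Ne.symm hy) x x'
  have h3 : ∑ y : V, ∑ x : ρ → V, ∑ y' : V, ∑ x' : ρ → V,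
      (if y' = y then μ ^ (univ.filter (fun r => x r ∈ univ.image x')).card - 1 else 0) ≤
      n * (n ^ R * ((n + (μ - 1) * R) ^ R - n ^ R)) := by
    have h4 : ∀ y : V, ∑ x : ρ → V, ∑ y' : V, ∑ x' : ρ → V,
        (if y' = y then μ ^ (univ.filter (fun r => x r ∈ univ.image x')).card - 1 else 0) =
        ∑ x' : ρ → V, ∑ x : ρ → V,
          (μ ^ (univ.filter (fun r => x r ∈ univ.image x')).card - 1) := by
      intro y
      rw [sum_comm (γ := ρ → V) (s := (univ : Finset (ρ → V))) (t := (univ : Finset (ρ → V)))]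
      refine sum_congr rfl fun x _ => ?_
      rw [sum_comm]
      refine sum_congr rfl fun x' _ => ?_
      rw [sum_ite_eq' univ y]
      simp
    simp only [h4]
    rw [sum_const, card_univ, nsmul_eq_mul]
    refine mul_le_mul_of_nonneg_left ?_ hn0.le
    have h5 : ∀ x' : ρ → V, ∑ x : ρ → V,
        (μ ^ (univ.filter (fun r => x r ∈ univ.image x')).card - 1) ≤
        (n + (μ - 1) * R) ^ R - n ^ R := by
      intro x'
      rw [sum_sub_distrib, sum_mu_pow, sum_const, card_univ, Fintype.card_fun]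
      simp only [nsmul_eq_mul, mul_one]
      push_cast
      have h6 : ((univ.image x').card : ℝ) ≤ R := by
        have : (univ.image x').card ≤ R := card_image_le
        exact_mod_cast this
      have h7 : (n + (μ - 1) * ((univ.image x').card : ℝ)) ^ R ≤ (n + (μ - 1) * R) ^ R :=
        pow_le_pow_left₀ (by positivity) (by
          have := mul_le_mul_of_nonneg_left h6 hμ1
          linarith) R
      linarith
    refine (sum_le_sum fun x' _ => h5 x').trans ?_
    rw [sum_const, card_univ, Fintype.card_fun, nsmul_eq_mul]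
    push_cast
    exact le_refl _
  have h4 : ∑ y : V, ∑ x : ρ → V, ∑ y' : V, ∑ x' : ρ → V,
      ((μ - 1) * ((if y' ∈ univ.image x then (1 : ℝ) else 0) *
        (if y ∈ univ.image x' then 1 else 0))) ≤
      (μ - 1) * ((R * n ^ R) * (R * n ^ R)) := by
    simp only [← mul_sum]
    refine mul_le_mul_of_nonneg_left ?_ hμ1
    have h5 : ∑ y : V, ∑ x : ρ → V, ∑ y' : V,
        ((if y' ∈ univ.image x then (1 : ℝ) else 0) *
          ∑ x' : ρ → V, (if y ∈ univ.image x' then (1 : ℝ) else 0)) =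
        (∑ y' : V, ∑ x : ρ → V, (if y' ∈ univ.image x then (1 : ℝ) else 0)) *
        (∑ y : V, ∑ x' : ρ → V, (if y ∈ univ.image x' then (1 : ℝ) else 0)) := by
      have h6 : ∀ y : V, ∑ x : ρ → V, ∑ y' : V,
          ((if y' ∈ univ.image x then (1 : ℝ) else 0) *
            ∑ x' : ρ → V, (if y ∈ univ.image x' then (1 : ℝ) else 0)) =
          (∑ y' : V, ∑ x : ρ → V, (if y' ∈ univ.image x then (1 : ℝ) else 0)) *
          ∑ x' : ρ → V, (if y ∈ univ.image x' then (1 : ℝ) else 0) := by
        intro y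
        simp only [← sum_mul]
        rw [sum_comm]
      simp only [h6]
      rw [← mul_sum]
    rw [h5]
    have h6 := sum_mem_image (V := V) (ρ := ρ)
    have h7 : (0 : ℝ) ≤ ∑ y' : V, ∑ x : ρ → V, (if y' ∈ univ.image x then (1 : ℝ) else 0) :=
      sum_nonneg fun _ _ => sum_nonneg fun _ _ => by split_ifs <;> norm_num
    exact mul_le_mul h6 h6 h7 (by positivity)
  have h5 : (n + (μ - 1) * R) ^ R ≤ n ^ R * (1 + 2 * ((μ - 1) * R ^ 2) / n) := by
    have hx : (0 : ℝ) ≤ (μ - 1) * R / n := by positivity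
    have h6 : (R : ℝ) * ((μ - 1) * R / n) ≤ 1 := by
      rw [← mul_div_assoc, div_le_one hn0]
      nlinarith [sq_nonneg (R : ℝ)]
    have h7 := pow_bd hx R h6
    have h8 : (n + (μ - 1) * R) ^ R = n ^ R * (1 + (μ - 1) * R / n) ^ R := by
      rw [← mul_pow]
      congr 1
      field_simp
    rw [h8]
    refine mul_le_mul_of_nonneg_left (h7.trans ?_) (by positivity)
    have h9 : (R : ℝ) * ((μ - 1) * R / n) = (μ - 1) * R ^ 2 / n := by ring
    have h10 : 0 ≤ (μ - 1) * (R : ℝ) ^ 2 / n := by positivity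
    rw [h9] at h6 ⊢
    have h11 : ((μ - 1) * R ^ 2 / n : ℝ) ^ 2 ≤ (μ - 1) * R ^ 2 / n := by nlinarith
    have h12 : (2 : ℝ) * ((μ - 1) * R ^ 2) / n = 2 * ((μ - 1) * R ^ 2 / n) := by ring
    rw [h12]
    linarith
  rw [h1]
  refine (sum_le_sum fun y _ => sum_le_sum fun x _ => sum_le_sum fun y' _ =>
    sum_le_sum fun x' _ => h2 y x y' x').trans ?_
  simp only [sum_add_distrib]
  refine (add_le_add h3 h4).trans ?_
  rw [hcard]
  have h6 : n * (n ^ R * ((n + (μ - 1) * R) ^ R - n ^ R)) ≤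
      n * (n ^ R * (n ^ R * (2 * ((μ - 1) * R ^ 2) / n))) := by
    refine mul_le_mul_of_nonneg_left (mul_le_mul_of_nonneg_left ?_ (by positivity)) hn0.le
    have : n ^ R * (1 + 2 * ((μ - 1) * R ^ 2) / n) =
        n ^ R + n ^ R * (2 * ((μ - 1) * R ^ 2) / n) := by ring
    linarith
  have h7 : n * (n ^ R * (n ^ R * (2 * ((μ - 1) * R ^ 2) / n))) =
      2 * ((μ - 1) * R ^ 2) * (n ^ R) ^ 2 := by
    field_simp
  have h8 : (2 * μ * (R : ℝ) / n) ^ 2 * (n * n ^ R) ^ 2 = 4 * μ ^ 2 * R ^ 2 * (n ^ R) ^ 2 := by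
    field_simp
    ring
  rw [h8]
  have h9 : (μ - 1) * ((R * n ^ R) * (R * n ^ R)) = (μ - 1) * ((R : ℝ) ^ 2 * (n ^ R) ^ 2) := by ring
  rw [h9]
  rw [h7] at h6
  have h10 : 0 ≤ (R : ℝ) ^ 2 * (n ^ R) ^ 2 := by positivity
  have h11 : 3 * (μ - 1) ≤ 4 * μ ^ 2 := by nlinarith [sq_nonneg (μ - 1)]
  have h12 := mul_le_mul_of_nonneg_right h11 h10
  linarith

end stars

/-- (H1) -/
theorem stStarL : StStarL := by
  intro V ρ _ _ _ _ _ L a ha haL hR Θ
  have ha0 : (0 : ℝ) < a := by exact_mod_cast ha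
  have hμ : (1 : ℝ) ≤ (L : ℝ) / a := by
    rw [le_div_iff₀ ha0, one_mul]; exact_mod_cast haL
  have hRμ : (Fintype.card ρ : ℝ) ^ 2 * ((L : ℝ) / a) ≤ Fintype.card V := by
    rw [← mul_div_assoc, div_le_iff₀ ha0]
    have : (((Fintype.card ρ) ^ 2 * L : ℕ) : ℝ) ≤ ((a * Fintype.card V : ℕ) : ℝ) := by
      exact_mod_cast hR
    push_cast at this
    linarith
  have h1 := prob_diff_sq (E := Sym2 V) (P := Option ρ → V) ha haL star Θ
  have h2 := sum_pairsL (V := V) (ρ := ρ) hμ hRμ
  have hP : (0 : ℝ) < Fintype.card (Option ρ → V) := by exact_mod_cast Fintype.card_pos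
  have h3 : (prob (fun x : (Sym2 V → Fin L) × (Option ρ → V) => Θ (low x.1 a ∪ star x.2)) -
      prob (fun lab : Sym2 V → Fin L => Θ (low lab a))) ^ 2 ≤
      (2 * ((L : ℝ) / a) * (Fintype.card ρ : ℝ) / Fintype.card V) ^ 2 := by
    refine h1.trans ?_
    rw [div_le_iff₀ (by positivity)]
    exact h2
  have h4 := (abs_le.1 (abs_le_of_sq_le_sq h3 (by positivity))).2
  linarith

end Pool.Agent.T9h65.QL
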